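import Mathlib

/-!
# H11G: positivity of Schur forms of Griffiths positive bundles, definitions
-/

set_option autoImplicit false

open scoped ComplexOrder
open MvPolynomial

namespace Pool.Agent.Lib.H11G

/-- `W H = ∑ sgn α sgn ρ ∏ H_i (α i) (ρ i)`: `k!` times the mixed discriminant of `H_1, ..., H_k`. -/
noncomputable def W {k : ℕ} (H : Fin k → Matrix (Fin k) (Fin k) ℂ) : ℂ :=
  ∑ α : Equiv.Perm (Fin k), ∑ ρ : Equiv.Perm (Fin k),
    ((Equiv.Perm.sign α : ℤ) : ℂ) * ((Equiv.Perm.sign ρ : ℤ) : ℂ) * ∏ i, H i (α i) (ρ i)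

/-- The `(1,1)`-form `∑ H p q (i dz_p ∧ dz̄_q)`; the variable `X (p, q)` stands for `i dz_p ∧ dz̄_q`. -/
noncomputable def form {k : ℕ} (H : Matrix (Fin k) (Fin k) ℂ) : MvPolynomial (Fin k × Fin k) ℂ :=
  ∑ p, ∑ q, C (H p q) * X (p, q)

/-- The coefficient of the volume form `∏ (i dz_p ∧ dz̄_p)` in a polynomial of degree `k` in the
commuting `(1,1)`-forms `X (p, q) = i dz_p ∧ dz̄_q` on `ℂ^k`: the product of the `X (p, π p)` is
`sgn π` times the volume form, all other monomials of degree `k` are `0`. -/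
noncomputable def vol {k : ℕ} (p : MvPolynomial (Fin k × Fin k) ℂ) : ℂ :=
  ∑ π : Equiv.Perm (Fin k), ((Equiv.Perm.sign π : ℤ) : ℂ) *
    p.coeff (∑ i, Finsupp.single (i, π i) 1)

/-- The `j`-th Chern form: coefficient of `t^j` in `det (1 + t M)`, and `0` for `j < 0`. -/
noncomputable def chern {r : ℕ} {R : Type*} [CommRing R] (M : Matrix (Fin r) (Fin r) R) (j : ℤ) : R :=
  if 0 ≤ j then
    ((1 : Matrix (Fin r) (Fin r) (Polynomial R)) + (Polynomial.X : Polynomial R) •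
      M.map Polynomial.C).det.coeff j.toNat
  else 0

/-- The Schur form `S_σ = det (c_{σ_i - i + j})`. -/
noncomputable def schur {r k : ℕ} {R : Type*} [CommRing R] (M : Matrix (Fin r) (Fin r) R)
    (σ : Fin k → ℕ) : R :=
  (Matrix.of fun i j : Fin k => chern M ((σ i : ℤ) - (i : ℕ) + (j : ℕ))).det

/-- Matrix of `(1,1)`-forms. -/
noncomputable def formMat {r k : ℕ} (H : Fin r → Fin r → Matrix (Fin k) (Fin k) ℂ) :
    Matrix (Fin r) (Fin r) (MvPolynomial (Fin k × Fin k) ℂ) :=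
  Matrix.of fun a b => form (H a b)

/-- `∑ v_a conj(v_b) H_ab`. -/
noncomputable def contr {r k : ℕ} (H : Fin r → Fin r → Matrix (Fin k) (Fin k) ℂ) (v : Fin r → ℂ) :
    Matrix (Fin k) (Fin k) ℂ :=
  ∑ a, ∑ b, (v a * star (v b)) • H a b

/-- `∑ u_a conj(v_b) H_ab`. -/
noncomputable def contr2 {r k : ℕ} (H : Fin r → Fin r → Matrix (Fin k) (Fin k) ℂ)
    (u v : Fin r → ℂ) : Matrix (Fin k) (Fin k) ℂ :=
  ∑ a, ∑ b, (u a * star (v b)) • H a b

/-- Griffiths positivity. -/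
def BPos {r k : ℕ} (H : Fin r → Fin r → Matrix (Fin k) (Fin k) ℂ) : Prop :=
  ∀ v : Fin r → ℂ, v ≠ 0 → (contr H v).PosDef

/-- Griffiths semipositivity. -/
def BSemi {r k : ℕ} (H : Fin r → Fin r → Matrix (Fin k) (Fin k) ℂ) : Prop :=
  ∀ v : Fin r → ℂ, (contr H v).PosSemidef

/-- `Φ B = ∑ sgn σ W (k ↦ B k (σ k))`. -/
noncomputable def Phi {k : ℕ} (B : Fin k → Fin k → Matrix (Fin k) (Fin k) ℂ) : ℂ :=
  ∑ σ : Equiv.Perm (Fin k), ((Equiv.Perm.sign σ : ℤ) : ℂ) * W fun i => B i (σ i)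

end Pool.Agent.Lib.H11G
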