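import Pool.Agent.Lib.H11G.Defs

/-!
# T1: the volume coefficient of products of (1,1)-forms

Proof. Linearity is immediate. `∏_i form (H i) = ∑_{f : Fin k → Fin k × Fin k} C (∏ H i (f i)) * ∏ X (f i)`
(`Finset.prod_univ_sum` or `Finset.prod_sum`), the coefficient of the monomial
`∑ single (i, π i) 1` in `∏ X (f i)` = monomial of `∑ single (f i) 1` is `1` iff `f` is a bijection onto
the graph of `π`, i.e. `f i = (α i, π (α i))` for a permutation `α`; put `ρ = π * α`,
`sgn π = sgn ρ * sgn α`, and sum over `π` and `α`.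
-/

set_option autoImplicit false

open MvPolynomial

namespace Pool.Agent.Lib.H11G

theorem vol_add {k : ℕ} (p q : MvPolynomial (Fin k × Fin k) ℂ) : vol (p + q) = vol p + vol q := by
  sorry

theorem vol_smul {k : ℕ} (c : ℂ) (p : MvPolynomial (Fin k × Fin k) ℂ) : vol (c • p) = c * vol p := by
  sorry

theorem vol_sum {k : ℕ} {ι : Type*} (s : Finset ι) (p : ι → MvPolynomial (Fin k × Fin k) ℂ) :
    vol (∑ i ∈ s, p i) = ∑ i ∈ s, vol (p i) := by
  sorry

theorem vol_prod {k : ℕ} (H : Fin k → Matrix (Fin k) (Fin k) ℂ) :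
    vol (∏ i, form (H i)) = W H := by
  sorry

/-- From `vol_prod` and `Matrix.det_apply`. -/
theorem vol_det {k : ℕ} (B : Fin k → Fin k → Matrix (Fin k) (Fin k) ℂ) :
    vol (Matrix.of fun i j => form (B i j)).det = Phi B := by
  sorry

theorem form_add {k : ℕ} (A B : Matrix (Fin k) (Fin k) ℂ) : form (A + B) = form A + form B := by
  sorry

theorem form_smul {k : ℕ} (c : ℂ) (A : Matrix (Fin k) (Fin k) ℂ) : form (c • A) = c • form A := by
  sorry

theorem form_sum {k : ℕ} {ι : Type*} (s : Finset ι) (A : ι → Matrix (Fin k) (Fin k) ℂ) :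
    form (∑ i ∈ s, A i) = ∑ i ∈ s, form (A i) := by
  sorry

end Pool.Agent.Lib.H11G
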