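import Pool.Agent.Lib.H11G.T8

/-!
# T9: Newton's formulas and the Schur forms of degree ≤ 3

`t1 = ∑ M a a`, `t2 = ∑ M a b M b a`, `t3 = ∑ M a b M b c M c a`. From `chern_sum` with `j = 1, 2, 3`
(`Matrix.det_fin_two`, `Matrix.det_fin_three`; sums over `Fin 2 → Fin r`, `Fin 3 → Fin r` as iterated sums).
The Schur forms: expand the determinants (`Matrix.det_fin_two`, `Matrix.det_fin_three`, `chern_neg`, `chern_zero`):
`S_(2,0) = c2`, `S_(1,1) = c1^2 - c2`, `S_(3,0,0) = c3`, `S_(2,1,0) = c1 c2 - c3`,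
`S_(1,1,1) = c1^3 - 2 c1 c2 + c3`; then insert Newton's formulas.
-/

set_option autoImplicit false

namespace Pool.Agent.Lib.H11G

variable {r : ℕ} {R : Type*} [CommRing R]

/-- `tr M` -/
def t1 (M : Matrix (Fin r) (Fin r) R) : R := ∑ a, M a a
/-- `tr M^2` -/
def t2 (M : Matrix (Fin r) (Fin r) R) : R := ∑ a, ∑ b, M a b * M b a
/-- `tr M^3` -/
def t3 (M : Matrix (Fin r) (Fin r) R) : R := ∑ a, ∑ b, ∑ c, M a b * M b c * M c a

theorem schur_1 (M : Matrix (Fin r) (Fin r) R) : schur M ![1] = t1 M := by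
  sorry

theorem schur_20 (M : Matrix (Fin r) (Fin r) R) :
    2 * schur M ![2, 0] = ∑ a, ∑ b, (M a a * M b b - M a b * M b a) := by
  sorry

theorem schur_11 (M : Matrix (Fin r) (Fin r) R) :
    2 * schur M ![1, 1] = t1 M ^ 2 + t2 M := by
  sorry

theorem schur_300 (M : Matrix (Fin r) (Fin r) R) :
    6 * schur M ![3, 0, 0] = ∑ f : Fin 3 → Fin r, (M.submatrix f f).det := by
  sorry

theorem schur_210 (M : Matrix (Fin r) (Fin r) R) :
    6 * schur M ![2, 1, 0] = 2 * (t1 M ^ 3 - t3 M) := by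
  sorry

theorem schur_111 (M : Matrix (Fin r) (Fin r) R) :
    6 * schur M ![1, 1, 1] = t1 M ^ 3 + 3 * t1 M * t2 M + 2 * t3 M := by
  sorry

end Pool.Agent.Lib.H11G
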