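import Pool.Agent.Lib.H11G.T3
import Pool.Agent.Lib.H11G.T9

/-!
# T10: a finite probability space with Gaussian moments up to order (3,3)

Coordinates are independent, with values `0` (probability 1/4), `i^k` (probability 1/6 each, k = 0..3), `2 i^k`
(probability 1/48 each): `E x^m conj(x)^n = δ_mn m!` for `m, n ≤ 3` (`E|x|^2 = 2/3 + 4/12 = 1`,
`E|x|^4 = 2/3 + 16/12 = 2`, `E|x|^6 = 2/3 + 64/12 = 6`). For maps `a b : Fin m → Fin r`, `m ≤ 3`, by independence
`E ∏ x_{b i} conj(x_{a i}) = ∏_c δ(m_c, n_c) m_c!` with `n_c, m_c` the numbers of `i` with `b i = c`, `a i = c`; this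
is the number of permutations `π` of `Fin m` with `b = a ∘ π` (if there is one, the number is
`|{g : a ∘ g = a}| = ∏ m_c!`, `DomMulAct.stabilizer_card` or by hand for m ≤ 3). Expand the
products of `qf` as sums and insert.
(`m = 3` for `E_cube`, `m = 2` for `E_sq` and for `x` in `E_pair`, `m = 1` for `y` in `E_pair`.)
`E_pair`: first the average over `y`: `E_y qf yy = t1`, `E_y (qf xy * qf yx) = ∑ u_a conj(u_b) (M²)_ab`-type sum.
-/

set_option autoImplicit false

namespace Pool.Agent.Lib.H11G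

/-- the nine values -/
noncomputable def val9 (j : Fin 9) : ℂ :=
  if (j : ℕ) = 0 then 0 else if (j : ℕ) ≤ 4 then Complex.I ^ (j : ℕ) else 2 * Complex.I ^ (j : ℕ)

/-- their probabilities -/
noncomputable def pr9 (j : Fin 9) : ℝ :=
  if (j : ℕ) = 0 then 1 / 4 else if (j : ℕ) ≤ 4 then 1 / 6 else 1 / 48

/-- random vector -/
noncomputable def vec {r : ℕ} (ω : Fin r → Fin 9) : Fin r → ℂ := fun a => val9 (ω a)

/-- probability -/
noncomputable def prob {r : ℕ} (ω : Fin r → Fin 9) : ℝ := ∏ a, pr9 (ω a)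

theorem prob_pos {r : ℕ} (ω : Fin r → Fin 9) : 0 < prob ω := by
  sorry

variable {r : ℕ} {R : Type*} [CommRing R] [Algebra ℂ R]

theorem E_sq (M : Matrix (Fin r) (Fin r) R) :
    ∑ ω : Fin r → Fin 9, (prob ω : ℂ) • (qf M (vec ω) (vec ω)) ^ 2 = t1 M ^ 2 + t2 M := by
  sorry

theorem E_cube (M : Matrix (Fin r) (Fin r) R) :
    ∑ ω : Fin r → Fin 9, (prob ω : ℂ) • (qf M (vec ω) (vec ω)) ^ 3
      = t1 M ^ 3 + 3 * t1 M * t2 M + 2 * t3 M := by
  sorry

theorem E_pair (M : Matrix (Fin r) (Fin r) R) :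
    ∑ ω : Fin r → Fin 9, ∑ η : Fin r → Fin 9, ((prob ω : ℂ) * (prob η : ℂ)) •
      (qf M (vec ω) (vec ω) * (qf M (vec ω) (vec ω) * qf M (vec η) (vec η)
        - qf M (vec ω) (vec η) * qf M (vec η) (vec ω)))
      = t1 M ^ 3 - t3 M := by
  sorry

end Pool.Agent.Lib.H11G
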