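import Pool.Agent.Lib.H11G.T2

/-!
# T11: the inequality for pairs (Griffiths), in degrees 2 and 3

Let `M = contr H x`, `N = contr H y`, `X = contr2 H x y`, so `Xᴴ = contr2 H y x` (all `contr H v` are Hermitian, so
`contr2 H y x = (contr2 H x y)ᴴ` by polarisation: `H b a = (H a b)ᴴ`), and
`|s|² M + s t̄ X + s̄ t Xᴴ + |t|² N = contr H (s x + t y)` is positive semidefinite.
Strict version (`hpos`, `x, y` linearly independent): `M` is positive definite, `M = C Cᴴ`, with `W_mul`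
(`P = C⁻¹`, `Q = (C⁻¹)ᴴ`) assume `M = 1`. For `k = 2`: `W ![1, N] = tr N`, `W ![X, Xᴴ] = |tr X|² - ∑ |X_ij|²`; for `k = 3`:
`W ![1, 1, N] = 2 tr N`, `W ![1, X, Xᴴ] = |tr X|² - ∑ |X_ij|²`. The 2 x 2 form
`|s|² + 2 Re (s t̄ X_ii) + |t|² N_ii > 0` gives `N_ii > |X_ii|²`, so `tr N > ∑ |X_ii|²`, and
`|tr X|² ≤ k ∑ |X_ii|²` (Cauchy-Schwarz), `∑ |X_ij|² ≥ ∑ |X_ii|²`: value
`(k-1) tr N - |tr X|² + ∑ |X_ij|² > (k-1+1-k) ∑ |X_ii|² = 0`.
Semidefinite version: replace `H a b` by `H a b + ε δ_ab 1` (strictly positive), `ε → 0`; if `x, y` are linearly dependent the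
expression is `0` (`y = c x` or `x = c y`: `X = c̄ M` ..., both `W` terms agree).
-/

set_option autoImplicit false

open scoped ComplexOrder

namespace Pool.Agent.Lib.H11G

variable {r : ℕ}

theorem pair2_nonneg (H : Fin r → Fin r → Matrix (Fin 2) (Fin 2) ℂ) (hH : BSemi H)
    (x y : Fin r → ℂ) :
    0 ≤ W ![contr H x, contr H y] - W ![contr2 H x y, contr2 H y x] := by
  sorry

theorem pair2_pos (H : Fin r → Fin r → Matrix (Fin 2) (Fin 2) ℂ) (hH : BPos H)
    (x y : Fin r → ℂ) (hxy : LinearIndependent ℂ ![x, y]) :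
    0 < W ![contr H x, contr H y] - W ![contr2 H x y, contr2 H y x] := by
  sorry

theorem pair3_nonneg (H : Fin r → Fin r → Matrix (Fin 3) (Fin 3) ℂ) (hH : BSemi H)
    (x y : Fin r → ℂ) :
    0 ≤ W ![contr H x, contr H x, contr H y] - W ![contr H x, contr2 H x y, contr2 H y x] := by
  sorry

theorem pair3_pos (H : Fin r → Fin r → Matrix (Fin 3) (Fin 3) ℂ) (hH : BPos H)
    (x y : Fin r → ℂ) (hxy : LinearIndependent ℂ ![x, y]) :
    0 < W ![contr H x, contr H x, contr H y] - W ![contr H x, contr2 H x y, contr2 H y x] := by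
  sorry

end Pool.Agent.Lib.H11G
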