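import Pool.Agent.Lib.H11G.Defs

/-!
# T6: operator scaling (Gurvits) for strictly positive maps, by compactness

Let `T X = ∑ X_ij B_ij`. On the compact set `K` of positive semidefinite `X` with `trace X = 1` the function
`g X = re (det X) / re (det (T X))` is continuous (`T X` is positive definite for `X ≠ 0` positive
semidefinite: `X` is a sum of rank one matrices `v v*`, spectral theorem) and positive at `X = 1/k`, so it has
a maximum at some `X0` with `det X0 ≠ 0`, so `X0` is positive definite; `g` is homogeneous of degree `0`, so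
`g Y ≤ g X0` for all positive definite `Y`. Write `X0 = P0 P0*`, `T X0 = R R*` with `P0, R` invertible and put
`T' Y = R⁻¹ T(P0 Y P0*) (R⁻¹)*`; `T' 1 = 1`, and `det Y ≤ det (T' Y)` (real parts) for all positive
definite `Y` (divide `g (P0 Y P0*) ≤ g X0`). For Hermitian `H` and small real `ε` take `Y = 1 + ε H`:
`det (1 + ε H) ≤ det (1 + ε T' H)`; both sides are polynomials in `ε` with constant term `1` and linear terms
`tr H`, `tr T' H` (real), so `tr H = tr (T' H)` for all Hermitian `H`, hence for all `H` by linearity. So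
`tr (B'_ij) = tr (T' E_ij) = δ_ij`, where `B'_ij = ∑ P_ia conj(P_jb) R⁻¹ B_ab (R⁻¹)*`, `P i a = P0 a i`
(`P0 E_ij P0* = ∑ P0 a i conj(P0 b j) E_ab`), and `∑ B'_ii = T' 1 = 1`. Scale `R⁻¹` by `√k` to get the factor
`k`. (It is enough to do it for general `k`; `k = 0` is trivial.)
-/

set_option autoImplicit false

open scoped ComplexOrder

namespace Pool.Agent.Lib.H11G

theorem scaling {k : ℕ} (B : Fin k → Fin k → Matrix (Fin k) (Fin k) ℂ) (hB : BPos B) :
    ∃ P Q : Matrix (Fin k) (Fin k) ℂ, P.det ≠ 0 ∧ Q.det ≠ 0 ∧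
      (∑ i, ∑ a, ∑ b, (P i a * star (P i b)) • (Q * B a b * Q.conjTranspose)
        = (k : ℂ) • (1 : Matrix (Fin k) (Fin k) ℂ)) ∧
      ∀ i j, (∑ a, ∑ b, (P i a * star (P j b)) • (Q * B a b * Q.conjTranspose)).trace
        = if i = j then (k : ℂ) else 0 := by
  sorry

end Pool.Agent.Lib.H11G
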