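import Pool.Agent.Lib.H11G.T5
import Pool.Agent.Lib.H11G.T6

/-!
# T7: `Phi B > 0` for all strictly positive maps of `M_3`, `Phi B ≥ 0` for all positive maps

`phi3_pos`: take `P, Q` from `scaling` (`k = 3`), `B' i j = ∑ P_ia conj(P_jb) (Q B_ab Q*)`;
`contr B' v = Q (contr B u) Q*` with `u a = ∑_i v_i P_ia ≠ 0`, so `BPos B'`, and `core3 B'` gives `0 < Phi B'`;
`Phi B' = |det P|^2 |det Q|^2 Phi B` (`Phi_cov`, `Phi_mul`).
`phi3_nonneg`: `B i j + ε δ_ij 1` is strictly positive for `ε > 0` and `Phi` is continuous in `ε`.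
-/

set_option autoImplicit false

open scoped ComplexOrder

namespace Pool.Agent.Lib.H11G

theorem phi3_pos (B : Fin 3 → Fin 3 → Matrix (Fin 3) (Fin 3) ℂ) (hB : BPos B) : 0 < Phi B := by
  sorry

theorem phi3_nonneg (B : Fin 3 → Fin 3 → Matrix (Fin 3) (Fin 3) ℂ) (hB : BSemi B) : 0 ≤ Phi B := by
  sorry

end Pool.Agent.Lib.H11G
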