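import Pool.Agent.Lib.H11G.T1
import Pool.Agent.Lib.H11G.T7
import Pool.Agent.Lib.H11G.T10
import Pool.Agent.Lib.H11G.T11

/-!
# T12: the six Schur forms of degree ≤ 3 on a k-dimensional space

`qf (formMat H) u v = form (contr2 H u v)` and `contr2 H v v = contr H v` (`form_sum`, `form_smul`).
`vol` is linear (`vol_add`, `vol_smul`, `vol_sum`) and `vol (form A * form B) = W ![A, B]`,
`vol (form A * form B * form C) = W ![A, B, C]` (`vol_prod`).
* `s1`: `vol (t1 (formMat H)) = ∑ H a a 0 0 = ∑ (contr H e_a) 0 0`.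
* `s20`: `schur_20`; the summand is `pair2` at `x = e_a, y = e_b` (`Pi.single`).
* `s11`: `schur_11`, `E_sq`, `W ![A, A] = 2 det A ≥ 0`.
* `s300`: `schur_300`; `vol (M.submatrix f f).det = Phi (fun i j => H (f i) (f j))` (`vol_det`), block positivity of
  the submatrix: `contr (H ∘ f) v = contr H u`, `u a = ∑_{i, f i = a} v i`; `phi3_nonneg`. For the strict version take one
  injective `f` (`r ≥ 3`), for which `u ≠ 0` if `v ≠ 0`, `phi3_pos`.
* `s210`: `schur_210`, `E_pair`, `pair3`. Strict: a pair of linearly independent vectors `vec ω, vec η` (`r ≥ 2`).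
* `s111`: `schur_111`, `E_cube`, `W ![A, A, A] = 6 det A`. Strict: some `vec ω ≠ 0` (`r ≥ 1`).
-/

set_option autoImplicit false

open scoped ComplexOrder

namespace Pool.Agent.Lib.H11G

variable {r : ℕ}

theorem qf_formMat {k : ℕ} (H : Fin r → Fin r → Matrix (Fin k) (Fin k) ℂ) (u v : Fin r → ℂ) :
    qf (formMat H) u v = form (contr2 H u v) := by
  sorry

theorem contr2_self {k : ℕ} (H : Fin r → Fin r → Matrix (Fin k) (Fin k) ℂ) (v : Fin r → ℂ) :
    contr2 H v v = contr H v := rfl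

theorem s1_nonneg (H : Fin r → Fin r → Matrix (Fin 1) (Fin 1) ℂ) (hH : BSemi H) :
    0 ≤ vol (schur (formMat H) ![1]) := by
  sorry

theorem s1_pos (H : Fin r → Fin r → Matrix (Fin 1) (Fin 1) ℂ) (hH : BPos H) (hr : 1 ≤ r) :
    0 < vol (schur (formMat H) ![1]) := by
  sorry

theorem s20_nonneg (H : Fin r → Fin r → Matrix (Fin 2) (Fin 2) ℂ) (hH : BSemi H) :
    0 ≤ vol (schur (formMat H) ![2, 0]) := by
  sorry

theorem s20_pos (H : Fin r → Fin r → Matrix (Fin 2) (Fin 2) ℂ) (hH : BPos H) (hr : 2 ≤ r) :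
    0 < vol (schur (formMat H) ![2, 0]) := by
  sorry

theorem s11_nonneg (H : Fin r → Fin r → Matrix (Fin 2) (Fin 2) ℂ) (hH : BSemi H) :
    0 ≤ vol (schur (formMat H) ![1, 1]) := by
  sorry

theorem s11_pos (H : Fin r → Fin r → Matrix (Fin 2) (Fin 2) ℂ) (hH : BPos H) (hr : 1 ≤ r) :
    0 < vol (schur (formMat H) ![1, 1]) := by
  sorry

end Pool.Agent.Lib.H11G
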