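import Pool.Agent.Lib.H11G.T12

/-!
# T13: degree 3 (see the docstring of T12)
-/

set_option autoImplicit false

open scoped ComplexOrder

namespace Pool.Agent.Lib.H11G

variable {r : ℕ}

theorem s300_nonneg (H : Fin r → Fin r → Matrix (Fin 3) (Fin 3) ℂ) (hH : BSemi H) :
    0 ≤ vol (schur (formMat H) ![3, 0, 0]) := by
  sorry

theorem s300_pos (H : Fin r → Fin r → Matrix (Fin 3) (Fin 3) ℂ) (hH : BPos H) (hr : 3 ≤ r) :
    0 < vol (schur (formMat H) ![3, 0, 0]) := by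
  sorry

theorem s210_nonneg (H : Fin r → Fin r → Matrix (Fin 3) (Fin 3) ℂ) (hH : BSemi H) :
    0 ≤ vol (schur (formMat H) ![2, 1, 0]) := by
  sorry

theorem s210_pos (H : Fin r → Fin r → Matrix (Fin 3) (Fin 3) ℂ) (hH : BPos H) (hr : 2 ≤ r) :
    0 < vol (schur (formMat H) ![2, 1, 0]) := by
  sorry

theorem s111_nonneg (H : Fin r → Fin r → Matrix (Fin 3) (Fin 3) ℂ) (hH : BSemi H) :
    0 ≤ vol (schur (formMat H) ![1, 1, 1]) := by
  sorry

theorem s111_pos (H : Fin r → Fin r → Matrix (Fin 3) (Fin 3) ℂ) (hH : BPos H) (hr : 1 ≤ r) :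
    0 < vol (schur (formMat H) ![1, 1, 1]) := by
  sorry

end Pool.Agent.Lib.H11G
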