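import Pool.Agent.Lib.H11G.Defs

/-!
# T14: restriction of a Griffiths (semi)positive curvature tensor to the span of `w_1, ..., w_k`

`contr (pull Θ w) v` has the quadratic form `x ↦ ∑ Θ a b j l τ_j conj(τ_l) v_a conj(v_b)` with
`τ_j = ∑_p conj(x_p) w p j`; it is `≥ 0` for all `x`, so the matrix is positive semidefinite (a complex matrix with real quadratic
form is Hermitian); strictly: `τ ≠ 0` if `x ≠ 0` and `w` is linearly independent.
-/

set_option autoImplicit false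

open scoped ComplexOrder

namespace Pool.Agent.Lib.H11G

/-- Restriction of the matrix `Θ` of (1,1)-forms on `ℂ^n` to the span of `w`. -/
noncomputable def pull {n r k : ℕ} (Θ : Fin r → Fin r → Matrix (Fin n) (Fin n) ℂ)
    (w : Fin k → Fin n → ℂ) : Fin r → Fin r → Matrix (Fin k) (Fin k) ℂ :=
  fun a b => Matrix.of fun p q => ∑ j, ∑ l, Θ a b j l * w p j * star (w q l)

/-- Griffiths semipositivity of the curvature `Θ` at a point (`T_x = ℂ^n`, orthonormal frame of `E_x = ℂ^r`). -/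
def GriffithsSemi {n r : ℕ} (Θ : Fin r → Fin r → Matrix (Fin n) (Fin n) ℂ) : Prop :=
  ∀ (v : Fin r → ℂ) (τ : Fin n → ℂ),
    0 ≤ ∑ a, ∑ b, ∑ j, ∑ l, Θ a b j l * τ j * star (τ l) * v a * star (v b)

/-- Griffiths positivity of the curvature at a point. -/
def GriffithsPos {n r : ℕ} (Θ : Fin r → Fin r → Matrix (Fin n) (Fin n) ℂ) : Prop :=
  ∀ (v : Fin r → ℂ) (τ : Fin n → ℂ), v ≠ 0 → τ ≠ 0 →
    0 < ∑ a, ∑ b, ∑ j, ∑ l, Θ a b j l * τ j * star (τ l) * v a * star (v b)

theorem pull_semi {n r k : ℕ} (Θ : Fin r → Fin r → Matrix (Fin n) (Fin n) ℂ)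
    (hΘ : GriffithsSemi Θ) (w : Fin k → Fin n → ℂ) : BSemi (pull Θ w) := by
  sorry

theorem pull_pos {n r k : ℕ} (Θ : Fin r → Fin r → Matrix (Fin n) (Fin n) ℂ)
    (hΘ : GriffithsPos Θ) (w : Fin k → Fin n → ℂ) (hw : LinearIndependent ℂ w) :
    BPos (pull Θ w) := by
  sorry

end Pool.Agent.Lib.H11G
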