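import Pool.Agent.Lib.H11G.Defs

/-!
# T2: covariance of `W` and `Phi`

Key lemma (as in the proof of `Matrix.det_mul`): for `F : (Fin k → Fin k) → ℂ`,
`∑_α sgn α ∑_f (∏ P (α i) (f i)) F f = det P * ∑_β sgn β F β`, because for fixed `f`
`∑_α sgn α ∏ P (α i) (f i)` is `det (P.submatrix id f)`, which is `0` if `f` is not injective and
`sgn f * det P` if `f` is a permutation.
`W_perm`: reindex `α ↦ α * π⁻¹`, `ρ ↦ ρ * π⁻¹` (the product of signs does not change).
`Phi_cov`: `Phi B = (1/k!) ∑_τ ∑_σ sgn τ sgn σ W (i ↦ B (τ i) (σ i))` by `W_perm`, then the key lemma in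
both indices.
-/

set_option autoImplicit false

namespace Pool.Agent.Lib.H11G

theorem W_perm {k : ℕ} (π : Equiv.Perm (Fin k)) (H : Fin k → Matrix (Fin k) (Fin k) ℂ) :
    W (fun i => H (π i)) = W H := by
  sorry

theorem W_mul {k : ℕ} (P Q : Matrix (Fin k) (Fin k) ℂ) (H : Fin k → Matrix (Fin k) (Fin k) ℂ) :
    W (fun i => P * H i * Q) = P.det * Q.det * W H := by
  sorry

/-- `Phi` under a change of the matrices. -/
theorem Phi_mul {k : ℕ} (P Q : Matrix (Fin k) (Fin k) ℂ)
    (B : Fin k → Fin k → Matrix (Fin k) (Fin k) ℂ) :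
    Phi (fun i j => P * B i j * Q) = P.det * Q.det * Phi B := by
  sorry

/-- `Phi` under a change of the basis of the index space. -/
theorem Phi_cov {k : ℕ} (P : Matrix (Fin k) (Fin k) ℂ)
    (B : Fin k → Fin k → Matrix (Fin k) (Fin k) ℂ) :
    Phi (fun i j => ∑ a, ∑ b, (P i a * star (P j b)) • B a b) = P.det * star P.det * Phi B := by
  sorry

end Pool.Agent.Lib.H11G
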