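import Pool.Agent.Lib.H11G.Defs

/-!
# T3: an exact cubature identity for 3 x 3 determinants (31 points)

The points `pt s` (unnormalised, with squared norm `nr s`) with weights `wt s` form an exact formula
for the average over the unit sphere of `ℂ^3` of polynomials of bidegree (3,3):
`E |u* x u|^2 = (t1^2 + t2)/12`, `E |u* x u|^3 = (t1^3 + 3 t1 t2 + 2 t3)/60` (`t_j = tr x^j`), and
`6 det x = t1^3 - 3 t1 t2 + 2 t3`. Only the final identity is needed. It is a polynomial identity in the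
nine entries of `x`. For the phases use
`∑_{ω^4=1} (s + ω q + ω⁻¹ r)^2 = 4 (s^2 + 2 q r)`, `∑ (s + ω q + ω⁻¹ r)^3 = 4 (s^3 + 6 s q r)`, and for two phases
(with `s = x11+x22+x33`, coefficients `q1,r1 (ω_a^{±1}), q2,r2 (ω_b^{±1}), q3,r3 (ω_a ω_b⁻¹ and inverse)`)
`∑∑ ()^2 = 16 (s^2 + 2(q1 r1 + q2 r2 + q3 r3))`, `∑∑ ()^3 = 16 (s^3 + 6 s (q1 r1 + q2 r2 + q3 r3) + 6 (two triple products))`.
-/

set_option autoImplicit false

namespace Pool.Agent.Lib.H11G

/-- index set of the 31 points -/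
abbrev Pt : Type := Fin 3 ⊕ (Fin 3 × Fin 4) ⊕ (Fin 4 × Fin 4)

/-- fourth roots of unity -/
noncomputable def ph (k : Fin 4) : ℂ := Complex.I ^ (k : ℕ)

/-- the points -/
noncomputable def pt : Pt → Fin 3 → ℂ
  | .inl j => fun i => if i = j then 1 else 0
  | .inr (.inl (j, k)) => fun i => if i = j then 0 else if i = j + 1 then 1 else ph k
  | .inr (.inr (a, b)) => ![1, ph a, ph b]

/-- squared norms of the points -/
noncomputable def nr : Pt → ℝ
  | .inl _ => 1
  | .inr (.inl _) => 2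
  | .inr (.inr _) => 3

/-- weights -/
noncomputable def wt : Pt → ℝ
  | .inl _ => 1 / 20
  | .inr (.inl _) => 1 / 30
  | .inr (.inr _) => 9 / 320

theorem wt_pos (s : Pt) : 0 < wt s := by
  sorry

theorem nr_pos (s : Pt) : 0 < nr s := by
  sorry

theorem wt_sum : ∑ s : Pt, wt s = 1 := by
  sorry

theorem pt_ne (s : Pt) : pt s ≠ 0 := by
  sorry

theorem pt_norm (s : Pt) : ∑ i, pt s i * star (pt s i) = (nr s : ℂ) := by
  sorry

/-- the quadratic form `∑ v_i conj(v_j) x_ij` -/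
noncomputable def qf {r : ℕ} {R : Type*} [CommRing R] [Algebra ℂ R] (x : Matrix (Fin r) (Fin r) R)
    (u v : Fin r → ℂ) : R :=
  ∑ i, ∑ j, (u i * star (v j)) • x i j

theorem cubature {R : Type*} [CommRing R] [Algebra ℂ R] (x : Matrix (Fin 3) (Fin 3) R) :
    x.det = x.trace ^ 3
      - (12 : ℂ) • (x.trace * ∑ s : Pt, ((wt s / nr s ^ 2 : ℝ) : ℂ) • (qf x (pt s) (pt s)) ^ 2)
      + (10 : ℂ) • ∑ s : Pt, ((wt s / nr s ^ 3 : ℝ) : ℂ) • (qf x (pt s) (pt s)) ^ 3 := by
  sorry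

end Pool.Agent.Lib.H11G
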