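import Pool.Agent.Lib.H11G.T2

/-!
# T4: Schur's inequality for a positive definite 3 x 3 matrix

Write `A = U diag(a) U*` (`Matrix.IsHermitian.spectral_theorem`), `W_mul` with `P = U`, `Q = U*`
(`det U * det U* = 1`), `3 • 1 = U (3 • 1) U*`. For diagonal matrices `W ![D, D, D] = 6 a b c`,
`W ![3 • 1, D, D] = 6 (a b + b c + c a)`, `W ![3 • 1, 3 • 1, 3 • 1] = 162`; `a + b + c = 3 s`. With `a = s a'` etc.
the claim is `60 e3' - 72 e2' + 162 > 0` where `e1' = 3`: Schur's inequality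
`e1'^3 - 4 e1' e2' + 9 e3' >= 0` is `27 - 12 e2' + 9 e3' >= 0` and `e3' > 0`.
-/

set_option autoImplicit false

open scoped ComplexOrder

namespace Pool.Agent.Lib.H11G

/-- Schur's inequality of degree 1. -/
theorem schur_ineq (a b c : ℝ) (ha : 0 ≤ a) (hb : 0 ≤ b) (hc : 0 ≤ c) :
    0 ≤ (a + b + c) ^ 3 - 4 * (a + b + c) * (a * b + b * c + c * a) + 9 * (a * b * c) := by
  sorry

theorem point_ineq (A : Matrix (Fin 3) (Fin 3) ℂ) (hA : A.PosDef) (s : ℝ) (hs : 0 < s)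
    (htr : A.trace = 3 * (s : ℂ)) :
    0 < 10 * ((1 / s ^ 3 : ℝ) : ℂ) * W ![A, A, A]
      - 12 * ((1 / s ^ 2 : ℝ) : ℂ) * W ![(3 : ℂ) • (1 : Matrix (Fin 3) (Fin 3) ℂ), A, A]
      + W ![(3 : ℂ) • (1 : Matrix (Fin 3) (Fin 3) ℂ), (3 : ℂ) • 1, (3 : ℂ) • 1] := by
  sorry

end Pool.Agent.Lib.H11G
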