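import Pool.Agent.Lib.H11G.T1
import Pool.Agent.Lib.H11G.T3
import Pool.Agent.Lib.H11G.T4

/-!
# T5: the core inequality in the doubly stochastic gauge

Apply `vol` to `cubature` for `x = Matrix.of fun i j => form (B i j)` in `R = MvPolynomial (Fin 3 × Fin 3) ℂ`:
`vol x.det = Phi B` (`vol_det`), `x.trace = form (3 • 1)` (`form_sum`, `h1`),
`qf x (pt s) (pt s) = form (contr B (pt s))` (`form_sum`, `form_smul`), and
`vol (form A * form B * form C) = W ![A, B, C]` (`vol_prod`, `Fin.prod_univ_three`). With `A_s = contr B (pt s)`,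
`Phi B = W(3,3,3) - 12 ∑ wt/nr^2 W(3, A_s, A_s) + 10 ∑ wt/nr^3 W(A_s,A_s,A_s) = ∑ wt s * (value of point_ineq at s = nr s)`
(`wt_sum`), where `A_s` is positive definite (`hB`, `pt_ne`) of trace `3 nr s` (`h2`, `pt_norm`).
-/

set_option autoImplicit false

open scoped ComplexOrder

namespace Pool.Agent.Lib.H11G

theorem T5_vol3 (A B C : Matrix (Fin 3) (Fin 3) ℂ) :
    vol (form A * form B * form C) = W ![A, B, C] := by
  rw [← vol_prod, Fin.prod_univ_three]
  rfl

theorem core3 (B : Fin 3 → Fin 3 → Matrix (Fin 3) (Fin 3) ℂ) (hB : BPos B)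
    (h1 : ∑ i, B i i = (3 : ℂ) • (1 : Matrix (Fin 3) (Fin 3) ℂ))
    (h2 : ∀ i j, (B i j).trace = if i = j then 3 else 0) : 0 < Phi B := by
  set x : Matrix (Fin 3) (Fin 3) (MvPolynomial (Fin 3 × Fin 3) ℂ) :=
    Matrix.of fun i j => form (B i j) with hx
  have hdet : vol x.det = Phi B := vol_det B
  have htr : x.trace = form ((3 : ℂ) • (1 : Matrix (Fin 3) (Fin 3) ℂ)) := by
    rw [← h1, form_sum]
    rfl
  have hq : ∀ v : Fin 3 → ℂ, qf x v v = form (contr B v) := by
    intro v
    unfold qf contr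
    rw [form_sum]
    refine Finset.sum_congr rfl fun i _ => ?_
    rw [form_sum]
    refine Finset.sum_congr rfl fun j _ => ?_
    rw [form_smul]
    rfl
  have hcub := cubature x
  rw [htr] at hcub
  simp only [hq] at hcub
  have h3 : form ((3 : ℂ) • (1 : Matrix (Fin 3) (Fin 3) ℂ)) ^ 3
      = form ((3 : ℂ) • (1 : Matrix (Fin 3) (Fin 3) ℂ)) * form ((3 : ℂ) • (1 : Matrix (Fin 3) (Fin 3) ℂ))
        * form ((3 : ℂ) • (1 : Matrix (Fin 3) (Fin 3) ℂ)) := by ring
  set M : Matrix (Fin 3) (Fin 3) ℂ := (3 : ℂ) • (1 : Matrix (Fin 3) (Fin 3) ℂ) with hM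
  have hexp : x.det = form M * form M * form M
      + (∑ s : Pt, ((-12 * (wt s / nr s ^ 2 : ℝ) : ℂ)) •
          (form M * form (contr B (pt s)) * form (contr B (pt s))))
      + ∑ s : Pt, ((10 * (wt s / nr s ^ 3 : ℝ) : ℂ)) •
          (form (contr B (pt s)) * form (contr B (pt s)) * form (contr B (pt s))) := by
    rw [hcub, h3]
    have e1 : (12 : ℂ) • (form M * ∑ s : Pt, ((wt s / nr s ^ 2 : ℝ) : ℂ) •
          (form (contr B (pt s))) ^ 2)
        = - ∑ s : Pt, ((-12 * (wt s / nr s ^ 2 : ℝ) : ℂ)) •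
          (form M * form (contr B (pt s)) * form (contr B (pt s))) := by
      rw [Finset.mul_sum, Finset.smul_sum, ← Finset.sum_neg_distrib]
      refine Finset.sum_congr rfl fun s _ => ?_
      rw [mul_smul_comm, smul_smul, ← neg_smul]
      have : form M * form (contr B (pt s)) ^ 2
          = form M * form (contr B (pt s)) * form (contr B (pt s)) := by ring
      rw [this]
      congr 1
      ring
    have e2 : (10 : ℂ) • ∑ s : Pt, ((wt s / nr s ^ 3 : ℝ) : ℂ) • (form (contr B (pt s))) ^ 3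
        = ∑ s : Pt, ((10 * (wt s / nr s ^ 3 : ℝ) : ℂ)) •
          (form (contr B (pt s)) * form (contr B (pt s)) * form (contr B (pt s))) := by
      rw [Finset.smul_sum]
      refine Finset.sum_congr rfl fun s _ => ?_
      rw [smul_smul]
      have : form (contr B (pt s)) ^ 3
          = form (contr B (pt s)) * form (contr B (pt s)) * form (contr B (pt s)) := by ring
      rw [this]
    rw [e1, e2]
    ring
  have hval : Phi B = W ![M, M, M]
      + (∑ s : Pt, (-12 * (wt s / nr s ^ 2 : ℝ) : ℂ) * W ![M, contr B (pt s), contr B (pt s)])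
      + ∑ s : Pt, (10 * (wt s / nr s ^ 3 : ℝ) : ℂ) *
          W ![contr B (pt s), contr B (pt s), contr B (pt s)] := by
    rw [← hdet, hexp, vol_add, vol_add, vol_sum, vol_sum]
    simp only [vol_smul, T5_vol3]
  have hsum : Phi B = ∑ s : Pt, ((wt s : ℝ) : ℂ) *
      (10 * ((1 / nr s ^ 3 : ℝ) : ℂ) * W ![contr B (pt s), contr B (pt s), contr B (pt s)]
        - 12 * ((1 / nr s ^ 2 : ℝ) : ℂ) * W ![M, contr B (pt s), contr B (pt s)]
        + W ![M, M, M]) := by
    have hw : W ![M, M, M] = ∑ s : Pt, ((wt s : ℝ) : ℂ) * W ![M, M, M] := by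
      rw [← Finset.sum_mul, ← Complex.ofReal_sum, wt_sum]
      simp
    rw [hval]
    conv_lhs => rw [hw]
    rw [← Finset.sum_add_distrib, ← Finset.sum_add_distrib]
    refine Finset.sum_congr rfl fun s _ => ?_
    push_cast
    ring
  have htrA : ∀ s : Pt, (contr B (pt s)).trace = 3 * ((nr s : ℝ) : ℂ) := by
    intro s
    rw [← pt_norm s]
    unfold contr
    rw [Matrix.trace_sum, Finset.mul_sum]
    refine Finset.sum_congr rfl fun i _ => ?_
    rw [Matrix.trace_sum]
    simp only [Matrix.trace_smul, h2, smul_eq_mul, mul_ite, mul_zero, Finset.sum_ite_eq,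
      Finset.mem_univ, if_true]
    ring
  rw [hsum]
  refine Finset.sum_pos (fun s _ => ?_) ⟨Sum.inl 0, Finset.mem_univ _⟩
  have hp := point_ineq (contr B (pt s)) (hB _ (pt_ne s)) (nr s) (nr_pos s) (htrA s)
  have hws : (0 : ℂ) < ((wt s : ℝ) : ℂ) := by
    exact_mod_cast wt_pos s
  exact mul_pos hws hp

end Pool.Agent.Lib.H11G
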