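import Pool.Agent.Lib.H11G.Defs

/-!
# T8: Chern forms as sums of principal minors
-/

set_option autoImplicit false

namespace Pool.Agent.Lib.H11G

open Finset in
theorem T8_fiber {r : ℕ} {R : Type*} [CommRing R] (M : Matrix (Fin r) (Fin r) R) (j : ℕ)
    (s : Finset (Fin r)) (hs : s.card = j) :
    ∑ f ∈ (Finset.univ : Finset (Fin j → Fin r)).filter (fun f => Finset.univ.image f = s),
      (M.submatrix f f).det = (j.factorial : R) *
        (M.submatrix (Subtype.val : s → Fin r) (Subtype.val : s → Fin r)).det := by
  classical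
  have hcard : Fintype.card (Fin j ≃ s) = j.factorial := by
    have e0 : Fin j ≃ s := (Fintype.equivFinOfCardEq (by simpa using hs)).symm
    rw [Fintype.card_equiv e0, Fintype.card_fin]
  have h1 : ∑ e : (Fin j ≃ s),
      (M.submatrix (fun i => ((e i : s) : Fin r)) (fun i => ((e i : s) : Fin r))).det =
      ∑ f ∈ (Finset.univ : Finset (Fin j → Fin r)).filter (fun f => Finset.univ.image f = s),
      (M.submatrix f f).det := by
    refine Finset.sum_bij (fun e _ => fun i => ((e i : s) : Fin r)) ?_ ?_ ?_ ?_
    · intro e _
      rw [Finset.mem_filter]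
      refine ⟨Finset.mem_univ _, ?_⟩
      ext x
      rw [Finset.mem_image]
      constructor
      · rintro ⟨i, _, rfl⟩
        exact (e i).2
      · intro hx
        exact ⟨e.symm ⟨x, hx⟩, Finset.mem_univ _, by simp⟩
    · intro e1 _ e2 _ h
      ext i
      exact congrArg Fin.val (congrFun h i)
    · intro f hf
      rw [Finset.mem_filter] at hf
      have hinj : Function.Injective f := by
        have hc : (Finset.univ.image f).card = (Finset.univ : Finset (Fin j)).card := by
          rw [hf.2, hs, Finset.card_univ, Fintype.card_fin]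
        have hio := Finset.card_image_iff.1 hc
        intro a b hab
        exact hio (Finset.mem_coe.2 (Finset.mem_univ a)) (Finset.mem_coe.2 (Finset.mem_univ b)) hab
      have hmem : ∀ i, f i ∈ s := fun i => by
        rw [← hf.2]; exact Finset.mem_image_of_mem _ (Finset.mem_univ _)
      refine ⟨Equiv.ofBijective (fun i => (⟨f i, hmem i⟩ : s)) ⟨?_, ?_⟩, Finset.mem_univ _, ?_⟩
      · intro a b hab
        exact hinj (congrArg Subtype.val hab)
      · intro x
        have hx : (x : Fin r) ∈ Finset.univ.image f := hf.2.symm ▸ x.2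
        obtain ⟨i, _, hi⟩ := Finset.mem_image.1 hx
        exact ⟨i, Subtype.ext hi⟩
      · rfl
    · intro e _
      rfl
  rw [← h1]
  have h2 : ∀ e : (Fin j ≃ s),
      (M.submatrix (fun i => ((e i : s) : Fin r)) (fun i => ((e i : s) : Fin r))).det =
      (M.submatrix (Subtype.val : s → Fin r) (Subtype.val : s → Fin r)).det := by
    intro e
    exact Matrix.det_submatrix_equiv_self e
      (M.submatrix (Subtype.val : s → Fin r) (Subtype.val : s → Fin r))
  rw [Finset.sum_congr rfl (fun e _ => h2 e), Finset.sum_const, Finset.card_univ, hcard,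
    nsmul_eq_mul]

theorem chern_sum {r : ℕ} {R : Type*} [CommRing R] (M : Matrix (Fin r) (Fin r) R) (j : ℕ) :
    (j.factorial : R) * chern M (j : ℤ) = ∑ f : Fin j → Fin r, (M.submatrix f f).det := by
  classical
  unfold chern
  rw [if_pos (Int.natCast_nonneg j), Int.toNat_natCast,
    Matrix.coeff_det_one_add_X_smul_eq_sum_minors, Finset.mul_sum]
  rw [← Finset.sum_fiberwise_of_maps_to (s := (Finset.univ : Finset (Fin j → Fin r)))
    (t := (Finset.univ : Finset (Finset (Fin r)))) (g := fun f => Finset.univ.image f)
    (fun _ _ => Finset.mem_univ _)]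
  have hsub : Finset.univ.powersetCard j ⊆ (Finset.univ : Finset (Finset (Fin r))) :=
    Finset.subset_univ _
  rw [← Finset.sum_subset hsub]
  · refine Finset.sum_congr rfl fun s hs => ?_
    rw [Finset.mem_powersetCard] at hs
    exact (T8_fiber M j s hs.2).symm
  · intro s _ hs
    refine Finset.sum_eq_zero fun f hf => ?_
    rw [Finset.mem_filter] at hf
    have hni : ¬ Function.Injective f := by
      intro hinj
      apply hs
      rw [Finset.mem_powersetCard]
      refine ⟨Finset.subset_univ _, ?_⟩
      rw [← hf.2, Finset.card_image_of_injective _ hinj, Finset.card_univ, Fintype.card_fin]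
    rw [Function.Injective] at hni
    push Not at hni
    obtain ⟨a, b, hab, hne⟩ := hni
    apply Matrix.det_zero_of_row_eq hne
    ext c
    rw [Matrix.submatrix_apply, Matrix.submatrix_apply, hab]

theorem chern_neg {r : ℕ} {R : Type*} [CommRing R] (M : Matrix (Fin r) (Fin r) R) (j : ℤ)
    (hj : j < 0) : chern M j = 0 := by
  unfold chern
  rw [if_neg (not_le.2 hj)]

theorem chern_zero {r : ℕ} {R : Type*} [CommRing R] (M : Matrix (Fin r) (Fin r) R) :
    chern M 0 = 1 := by
  have h := chern_sum M 0
  simp only [Nat.factorial_zero, Nat.cast_one, one_mul, Nat.cast_zero] at h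
  rw [h]
  simp

end Pool.Agent.Lib.H11G
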